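import Pool.Agent.Helper28.T5.StN
import Pool.Agent.Helper22.TLN.M_NX

/-!
# Project TH, level `2p`, `a` even: the `p`-adic part and the analytic part assembled
-/

set_option autoImplicit false

open Pool.Agent.Helper14.CV (G0 Homog EqC act StFar)
open Pool.Agent.Helper28.WK
open Pool.Agent.Helper14.WK

namespace Pool.Agent.Helper28.T5N

open Pool.Agent.Helper28.LV
open Pool.Agent.Helper28.TL (IsNewN)
open Pool.Agent.Helper28.T5
open Pool.Agent.Helper28.TH (OkH ALPlus)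
open Pool.Agent.Helper28.T5

/-- The `p`-adic part. -/
theorem hQPH (la : SHLa) (lb : SHLb2) (ui : UIpH) (pol : ZLPol) (ms : MSH) (rt : RgT)
    (eg : EG) (qfa : ZQFa) (qfb : ZQFb) (w1 : ZLW1) (w2 : ZLW2) (w4 : ZLW4) (p : ℕ)
    (hp : Fact p.Prime) (κ : ℤ) (hp2 : p ≠ 5) (hTA : TAH p κ) (a : ℕ) (Φ : ℤ → ℤ → ℕ → ℤ_[p])
    (hW : WSNH p a 1 Φ) :
    ∃ Ψ : ℤ → ℤ → ℕ → ℚ_[p], L1H p a (6 * κ) (fun x y i => (Φ x y i : ℚ_[p])) Ψ := by
  obtain ⟨ψ, hψ1, hψ2, hψ3⟩ := lb la ui p hp κ hp2 hTA 1 (cp Φ a) (hW.hom a (by omega))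
    (fun M hM => w1 p hp a 1 Φ hp2 hW M (by omega)) hW.fr
    hW.st (fun M hM ls hls => w4 p hp a 1 Φ hW M (by omega) ls hls)
  obtain ⟨hb, hc⟩ := w2 p hp a 1 Φ hW
  obtain ⟨hb', hc'⟩ := pol p hp (6 * κ) a 1 (cp Φ a) ψ hp2 (hW.hom a (by omega)) hψ1 hψ2 hψ3 hb hc
  obtain ⟨F, hF⟩ := qfa ms rt eg p hp (6 * κ) a Φ ψ hp2 (by
    intro α β γ δ hd h2 hg
    have h := hW.eqv α β γ δ hd h2 (by simpa using hg) a (by omega)
    rwa [show 2 * a - a = a by omega] at h) hψ1 (fun M hM => by simpa using hψ2 M hM) hψ3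
    hb' (fun c h => hc' c (by simpa using h))
  exact qfb rt p hp a (6 * κ) Φ F hF

/-- The analytic part: a symbol `Ψ` of level two for the extended group gives a cusp form of level two. -/
theorem hANH (nr : NRH) (ne : NEH) (ca5 : CA5H) (mf : ZMF) (nx : Pool.Agent.Helper79.TLN.SNNX) (a1 : SKA1)
    (p : ℕ) (hp : p.Prime) (κ : ℤ) (hκ : κ ≠ 0) (A : ℕ) (hA : Even A) (hA1 : 1 ≤ A)
    (hne : NeZero (5 * p ^ 1)) (f : CuspForm (G0 (5 * p ^ 1)) (2 * A + 2)) (hf : IsNewN f)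
    (I Ψ : ℤ → ℤ → ℕ → ℂ) (hI : IsPotK A f I) (hinf : ∀ i : ℕ, i ≤ 2 * A → I 1 0 i = 0)
    (hhom : ∀ i : ℕ, i ≤ 2 * A → Homog (cp I i)) (hL : L1H p A κ (PhN A I) Ψ) : False := by
  obtain ⟨b0, b1, bs, hG⟩ := ne (5 * p ^ 1) p A hne f hp hA hA1
  set c : ℂ := ((2 * A).factorial : ℂ) * Complex.I with hc
  have hc0 : c ≠ 0 := mul_ne_zero (by exact_mod_cast (Nat.factorial_ne_zero _)) Complex.I_ne_zero
  have hF : ∀ α β γ δ : ℤ, HTy α β γ δ → 0 < γ → ∀ z : ℂ, 0 < z.im →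
      ((α * δ - β * γ : ℤ) : ℂ) ^ (A + 1) *
        FF (bco p A f) (((α : ℂ) * z + β) / ((γ : ℂ) * z + δ)) =
      ((γ : ℂ) * z + δ) ^ (2 * A + 2) * FF (bco p A f) z := by
    intro α β γ δ hty hγ
    obtain ⟨P, hP, hrel⟩ := nr (5 * p ^ 1) p A hne κ f I Ψ hκ hp hA hA1 hI hinf hhom hL α β γ δ
      hty hγ
    have hΔ : 0 < α * δ - β * γ := by
      rcases hty with h | h <;> rw [h.1] <;> norm_num
    refine ca5 A (bco p A f) (Polynomial.C (c⁻¹) * P) α β γ δ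
      ((Polynomial.natDegree_C_mul_le _ _).trans hP) b0 bs hΔ hγ ?_
    intro x hx
    have h1 := hrel x hx
    rw [hG x, hG (((α : ℝ) * x + β) / ((γ : ℝ) * x + δ))] at h1
    rw [Polynomial.eval_mul, Polynomial.eval_C]
    have e1 : ((((α : ℝ) * x + β) / ((γ : ℝ) * x + δ) : ℝ) : ℂ) =
        ((α : ℂ) * (x : ℂ) + β) / ((γ : ℂ) * (x : ℂ) + δ) := by
      push_cast
      rfl
    rw [e1] at h1
    refine mul_left_cancel₀ hc0 ?_
    have h2 : c * (c⁻¹ * P.eval (x : ℂ)) = P.eval (x : ℂ) := by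
      rw [← mul_assoc, mul_inv_cancel₀ hc0, one_mul]
    linear_combination h1 - h2
  obtain ⟨g, hg⟩ := mf A (bco p A f) b0 bs hF
  have hHg : ∀ l : ℕ, l.Prime → ¬ l ∣ 5 * p ^ 1 → HeckeEigK g l (fcK f l) := fun l hl hlN =>
    nx a1 p A (5 * p ^ 1) 5 hne f g hp hg l hl (by
      rintro rfl
      exact hlN (Dvd.intro_left 5 (by ring))) (hf.hecke l hl hlN)
  have hg0 : g = 0 := hf.new p 5 hp (by ring) g hHg
  have h1 : fcK g 1 = 1 := by rw [hg 1, b1, hf.normalised]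
  rw [hg0] at h1
  have h2 : fcK (0 : CuspForm (G0 5) (2 * A + 2)) 1 = 0 := by
    unfold fcK
    have h4 : ((0 : CuspForm (G0 5) (2 * A + 2)) : UpperHalfPlane → ℂ) = 0 := rfl
    rw [h4]
    simp [UpperHalfPlane.qExpansion_zero]
  rw [h2] at h1
  exact zero_ne_one h1

end Pool.Agent.Helper28.T5N
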