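import Pool.Agent.Helper28.T5.StN
import Pool.Agent.Helper28.T5.M_RgQ

/-!
# Project TK, low levels (MP_3c9520_nt), module QFa: the system `F_D` for the extended group
-/

set_option autoImplicit false

namespace Pool.Agent.Helper28.T5N

open Pool.Agent.Helper28.TH (OkH ALPlus)

open Pool.Agent.Helper28.T5 Pool.Agent.Helper28.WK Pool.Agent.Helper28.LV Pool.Agent.Helper28.T5
open Pool.Agent.Helper14.CV

private theorem u_ne {p : ℕ} (hp : (p : ℤ) ≠ 0) {x y : ℤ} (h : x ≠ 0 ∨ y ≠ 0) :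
    x ≠ 0 ∨ (p : ℤ) * y ≠ 0 := by
  rcases h with h | h
  · exact Or.inl h
  · exact Or.inr (mul_ne_zero hp h)

private theorem u_ne' {p : ℕ} (hp : (p : ℤ) ≠ 0) {x y : ℤ} (h : x ≠ 0 ∨ y ≠ 0) :
    (p : ℤ) * x ≠ 0 ∨ y ≠ 0 := by
  rcases h with h | h
  · exact Or.inl (mul_ne_zero hp h)
  · exact Or.inr h

private theorem k_ne {k : ℤ} (hk : k ≠ 0) {x y : ℤ} (h : x ≠ 0 ∨ y ≠ 0) :
    k * x ≠ 0 ∨ k * y ≠ 0 := by
  rcases h with h | h
  · exact Or.inl (mul_ne_zero hk h)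
  · exact Or.inr (mul_ne_zero hk h)

/-- Step (0). -/
private theorem nc_all {p : ℕ} [Fact p.Prime] (hp : (p : ℤ) ≠ 0) (a : ℕ) (ψ : ℤ → ℤ → ℤ_[p])
    (hψ : Homog ψ)
    (hNc : ∀ c : ℤ, 5 * (p : ℤ) ∣ c → EqC (Nc a c (act p 0 0 1 ψ)) 0) (c : ℤ) (hc : 5 ∣ c) :
    EqC (Nc a c ψ) 0 := by
  obtain ⟨k, hk⟩ := hNc (p * c) (by
    obtain ⟨c', rfl⟩ := hc
    exact ⟨c', by ring⟩)
  refine ⟨k, fun x y hxy => ?_⟩
  have h1 : Nc a (p * c) (act p 0 0 1 ψ) x (p * y) = 0 + k := hk x (p * y) (u_ne hp hxy)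
  change Nc a c ψ x y = 0 + k
  rw [← h1]
  simp only [Nc, act]
  refine Finset.sum_congr rfl fun j _ => ?_
  congr 1
  have h2 : x ≠ 0 ∨ (j : ℤ) * c * x + y ≠ 0 := by
    by_cases hx : x = 0
    · right
      rw [hx, mul_zero, zero_add]
      rcases hxy with h | h
      · exact absurd hx h
      · exact h
    · exact Or.inl hx
  rw [← hψ p x ((j : ℤ) * c * x + y) hp h2]
  congr 1 <;> ring

/-- The product of a matrix of determinant one with lower left entry divisible by three and a matrix of the extended group. -/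
private theorem HTy_mul {α β γ δ x y z t : ℤ} (hd : α * δ - β * γ = 1) (h2 : (5 : ℤ) ∣ γ)
    (h : HTy x y z t) :
    HTy (α * x + β * z) (α * y + β * t) (γ * x + δ * z) (γ * y + δ * t) := by
  have hdet : (α * x + β * z) * (γ * y + δ * t) - (α * y + β * t) * (γ * x + δ * z) =
      x * t - y * z := by
    linear_combination (x * t - y * z) * hd
  rcases h with ⟨h1, h3⟩ | ⟨h1, h3, h4, h5⟩
  · left
    refine ⟨by rw [hdet, h1], dvd_add (Dvd.dvd.mul_right h2 x) (Dvd.dvd.mul_left h3 δ)⟩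
  · right
    exact ⟨by rw [hdet, h1], dvd_add (Dvd.dvd.mul_left h3 α) (Dvd.dvd.mul_left h4 β),
      dvd_add (Dvd.dvd.mul_right h2 x) (Dvd.dvd.mul_left h4 δ),
      dvd_add (Dvd.dvd.mul_right h2 y) (Dvd.dvd.mul_left h5 δ)⟩

/-- QFa-H -/
theorem hQFa : ZQFa := by
  intro hMS hT hE p hpf κ a Φ ψ hp2 heqv hψ hsym hu hNb hNc
  have hp0 : (p : ℤ) ≠ 0 := by exact_mod_cast hpf.out.ne_zero
  have hpQ : (p : ℚ_[p]) ≠ 0 := by exact_mod_cast hpf.out.ne_zero
  have hpodd : ¬ (5 : ℤ) ∣ (p : ℤ) := by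
    intro h
    have h' : 5 ∣ p := by exact_mod_cast h
    exact hp2 ((Nat.prime_dvd_prime_iff_eq Nat.prime_five hpf.out).1 h').symm
  have hNc' := nc_all hp0 a ψ hψ hNc
  obtain ⟨k', hk'⟩ := hu
  have hsym' : ∀ M : ℕ, 3 ≤ M → SymH p M (M + 1) (redP M ψ) := by
    intro M hM
    obtain ⟨g1, g2⟩ := hsym M hM
    refine ⟨g1, fun α β γ δ hd hb hc => g2 α β γ δ hd hb (dvd_trans ?_ hc)⟩
    exact pow_dvd_pow _ (Nat.le_succ M)
  obtain ⟨F, hF⟩ := hMS p hpf a ψ hp2 hψ hsym' hNb hNc'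
  obtain ⟨E1, E2, E3, E4⟩ := hE p hpf a Φ
  have hU := Pool.Agent.Helper28.T5.hRgQ
  -- determinant one
  have one : ∀ v1 v2 w1 w2 : ℤ, (v1 ≠ 0 ∨ v2 ≠ 0) → (w1 ≠ 0 ∨ w2 ≠ 0) → ∀ α β γ δ : ℤ,
      α * δ - β * γ = 1 → (5 : ℤ) ∣ γ →
      ((ψ (α * w1 + β * w2) (γ * w1 + δ * w2) : ℤ_[p]) : ℚ_[p]) -
        ((ψ (α * v1 + β * v2) (γ * v1 + δ * v2) : ℤ_[p]) : ℚ_[p]) = F v1 v2 w1 w2 α β γ δ := by
    intro v1 v2 w1 w2 hv hw α β γ δ hd h2
    have h := (hF v1 v2 w1 w2 hv hw).2 α β γ δ (Or.inl ⟨hd, h2⟩)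
    rw [hd, one_pow, Int.cast_one, one_mul, PadicInt.coe_sub] at h
    exact h
  refine ⟨F, ?_⟩
  unfold FSysH
  refine ⟨fun v1 v2 w1 w2 hv hw => (hF v1 v2 w1 w2 hv hw).1, ?_, ?_, ?_, ?_⟩
  -- additivity
  · intro v1 v2 w1 w2 z1 z2 hv hw hz
    have r1 := (hF v1 v2 w1 w2 hv hw).1
    have s1 := (hF w1 w2 z1 z2 hw hz).1
    have t1 := (hF v1 v2 z1 z2 hv hz).1
    obtain ⟨_, _, _, l1, _⟩ := hT p hpf a _ r1
    have A1 := l1 _ 1 1 s1
    obtain ⟨_, _, _, l2, _⟩ := hT p hpf a _ A1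
    have A2 := l2 _ 1 (-1) t1
    have hz := hU p hpf a 0 _ A2 (by
      intro α β γ δ hd h2 _ _ _ _
      have q1 := one v1 v2 w1 w2 hv hw α β γ δ hd h2
      have q2 := one w1 w2 z1 z2 hw hz α β γ δ hd h2
      have q3 := one v1 v2 z1 z2 hv hz α β γ δ hd h2
      linear_combination q3 - q1 - q2)
    intro α β γ δ
    have := hz α β γ δ
    linear_combination this
  -- homogeneity
  · intro v1 v2 w1 w2 k hv hw hk
    have r1 := (hF v1 v2 w1 w2 hv hw).1
    have s1 := (hF v1 v2 (k * w1) (k * w2) hv (k_ne hk hw)).1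
    obtain ⟨_, _, _, l1, _⟩ := hT p hpf a _ s1
    have A1 := l1 _ 1 (-1) r1
    have hz := hU p hpf a 0 _ A1 (by
      intro α β γ δ hd h2 _ _ _ _
      have hgw := ne_zero_of_det (by rw [hd]; exact one_ne_zero : α * δ - β * γ ≠ 0) hw
      have q1 := one v1 v2 w1 w2 hv hw α β γ δ hd h2
      have q2 := one v1 v2 (k * w1) (k * w2) hv (k_ne hk hw) α β γ δ hd h2
      have q3 := hψ k _ _ hk hgw
      have e1 : α * (k * w1) + β * (k * w2) = k * (α * w1 + β * w2) := by ring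
      have e2 : γ * (k * w1) + δ * (k * w2) = k * (γ * w1 + δ * w2) := by ring
      rw [e1, e2, q3] at q2
      linear_combination q1 - q2)
    intro α β γ δ
    have := hz α β γ δ
    linear_combination this
  -- equivariance
  · intro v1 v2 w1 w2 hv hw x y z t hH
    have hne : x * t - y * z ≠ 0 := hH.det_ne
    obtain ⟨r1, r2⟩ := hF v1 v2 w1 w2 hv hw
    have hgv' := ne_zero_of_det hne hv
    have hgw' := ne_zero_of_det hne hw
    have s1 := (hF (x * v1 + y * v2) (z * v1 + t * v2) (x * w1 + y * w2) (z * w1 + t * w2)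
      hgv' hgw').1
    obtain ⟨c1, _, _, _, _⟩ := hT p hpf a _ r1
    have c1' := c1 (x : ℚ_[p]) (y : ℚ_[p]) (z : ℚ_[p]) (t : ℚ_[p])
    obtain ⟨_, _, _, l1, _⟩ := hT p hpf a _ s1
    have A1 := l1 _ ((((x * t - y * z) ^ a : ℤ)) : ℚ_[p]) (-1) c1'
    have hz := hU p hpf a 0 _ A1 (by
      intro α β γ δ hd h2 _ _ _ _
      have q1 := r2 (α * x + β * z) (α * y + β * t) (γ * x + δ * z) (γ * y + δ * t)
        (HTy_mul hd h2 hH)
      have hdet : (α * x + β * z) * (γ * y + δ * t) - (α * y + β * t) * (γ * x + δ * z) =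
          x * t - y * z := by
        linear_combination (x * t - y * z) * hd
      rw [hdet, PadicInt.coe_mul, PadicInt.coe_intCast, PadicInt.coe_sub] at q1
      have q2 := one (x * v1 + y * v2) (z * v1 + t * v2) (x * w1 + y * w2) (z * w1 + t * w2)
        hgv' hgw' α β γ δ hd h2
      have e1 : α * (x * w1 + y * w2) + β * (z * w1 + t * w2) =
          (α * x + β * z) * w1 + (α * y + β * t) * w2 := by ring
      have e2 : γ * (x * w1 + y * w2) + δ * (z * w1 + t * w2) =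
          (γ * x + δ * z) * w1 + (γ * y + δ * t) * w2 := by ring
      have e3 : α * (x * v1 + y * v2) + β * (z * v1 + t * v2) =
          (α * x + β * z) * v1 + (α * y + β * t) * v2 := by ring
      have e4 : γ * (x * v1 + y * v2) + δ * (z * v1 + t * v2) =
          (γ * x + δ * z) * v1 + (γ * y + δ * t) * v2 := by ring
      rw [e1, e2, e3, e4] at q2
      have c2 : (((α * x + β * z : ℤ)) : ℚ_[p]) = (α : ℚ_[p]) * x + β * z := by push_cast; ring
      have c3 : (((α * y + β * t : ℤ)) : ℚ_[p]) = (α : ℚ_[p]) * y + β * t := by push_cast; ring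
      have c4 : (((γ * x + δ * z : ℤ)) : ℚ_[p]) = (γ : ℚ_[p]) * x + δ * z := by push_cast; ring
      have c5 : (((γ * y + δ * t : ℤ)) : ℚ_[p]) = (γ : ℚ_[p]) * y + δ * t := by push_cast; ring
      rw [c2, c3, c4, c5] at q1
      linear_combination q1 - ((((x * t - y * z) ^ a : ℤ)) : ℚ_[p]) * q2)
    intro α β γ δ
    have := hz α β γ δ
    linear_combination this
  -- the relation with the symbol
  · intro v1 v2 w1 w2 hv hw
    have r1 := (hF v1 v2 w1 w2 hv hw).1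
    have s1 := (hF (p * v1) v2 (p * w1) w2 (u_ne' hp0 hv) (u_ne' hp0 hw)).1
    obtain ⟨_, t2, _, _, _⟩ := hT p hpf a _ s1
    have t2' := t2 (p : ℚ_[p]) ((p : ℚ_[p])⁻¹)
    obtain ⟨_, _, _, t4, _⟩ := hT p hpf a _ t2'
    have t4' := t4 _ 1 (-1) r1
    obtain ⟨_, _, _, t5, _⟩ := hT p hpf a _ (E1 v1 v2 w1 w2)
    have hR := t5 _ (κ : ℚ_[p]) (-1) t4'
    have hz := hU p hpf a 1 _ hR (by
      intro α β γ δ hd h2 _ _ hc _
      rw [pow_one] at hc
      obtain ⟨γ', hγ⟩ := hc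
      have hγ2' : (5 : ℤ) ∣ γ' := by
        rw [hγ] at h2
        exact ((Int.prime_iff_natAbs_prime.2 (by norm_num) : Prime (5 : ℤ)).dvd_or_dvd h2).resolve_left hpodd
      have hgw := ne_zero_of_det (by rw [hd]; exact one_ne_zero : α * δ - β * γ ≠ 0) hw
      have hgv := ne_zero_of_det (by rw [hd]; exact one_ne_zero : α * δ - β * γ ≠ 0) hv
      have q1 := one v1 v2 w1 w2 hv hw α β γ δ hd h2
      have q2 := one (p * v1) v2 (p * w1) w2 (u_ne' hp0 hv) (u_ne' hp0 hw) α (p * β) γ' δ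
        (by rw [← hd, hγ]; ring) hγ2'
      have q3 := hk' _ _ hgw
      have q4 := hk' _ _ hgv
      have q5 := E4 v1 v2 w1 w2 α β γ δ hv hw (heqv α β γ δ hd h2 ⟨γ', hγ⟩)
      simp only [Pi.sub_apply, Pi.smul_apply, act, cp, zsmul_eq_mul] at q3 q4
      have m1 : ψ (α * (p * w1) + p * β * w2) (γ' * (p * w1) + δ * w2) =
          ψ (p * (α * w1 + β * w2) + 0 * (γ * w1 + δ * w2))
            (0 * (α * w1 + β * w2) + 1 * (γ * w1 + δ * w2)) := by
        rw [hγ]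
        congr 1 <;> ring
      have m2 : ψ (α * (p * v1) + p * β * v2) (γ' * (p * v1) + δ * v2) =
          ψ (p * (α * v1 + β * v2) + 0 * (γ * v1 + δ * v2))
            (0 * (α * v1 + β * v2) + 1 * (γ * v1 + δ * v2)) := by
        rw [hγ]
        congr 1 <;> ring
      have hγ2 : (p : ℚ_[p])⁻¹ * ((γ : ℤ) : ℚ_[p]) = ((γ' : ℤ) : ℚ_[p]) := by
        rw [hγ]
        push_cast
        rw [← mul_assoc, inv_mul_cancel₀ hpQ, one_mul]
      have m3 : (ψ (α * (p * w1) + p * β * w2) (γ' * (p * w1) + δ * w2) -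
          ψ (α * (p * v1) + p * β * v2) (γ' * (p * v1) + δ * v2)) -
            (ψ (α * w1 + β * w2) (γ * w1 + δ * w2) - ψ (α * v1 + β * v2) (γ * v1 + δ * v2)) =
          (κ : ℤ_[p]) * (Φ (α * w1 + β * w2) (γ * w1 + δ * w2) a -
            Φ (α * v1 + β * v2) (γ * v1 + δ * v2) a) := by
        rw [m1, m2]
        linear_combination q3 - q4
      have m4 := congrArg (fun z : ℤ_[p] => (z : ℚ_[p])) m3
      rw [PadicInt.coe_sub, PadicInt.coe_sub, PadicInt.coe_sub, q2, q1, PadicInt.coe_mul, q5,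
        PadicInt.coe_intCast] at m4
      rw [hγ2]
      push_cast at m4 ⊢
      linear_combination -m4)
    intro α β γ δ
    have := hz α β γ δ
    rw [div_eq_inv_mul]
    linear_combination this

end Pool.Agent.Helper28.T5N
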